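import Pool.Agent.TH652.CX.All2

/-!
# Deligne's conjecture for the abelian twists of an abelian variety in the group ring

`A` is an abelian variety over `ℚ` of dimension `d`, with local factors `P_ℓ ∈ ℤ[X]`, and `F` an abelian
extension of `ℚ` inside `ℚ(ζ_f)` with group `G`, given by the restriction map `(ℤ/f)ˣ → G`,
`a ↦ σ_a|_F`. In the question the normalised values

`𝓛_C(A, ψ) = τ*(ψ⁻¹)^d L_C(A, ψ, 1) / Ω`

for the characters `ψ` of `G` are to be compatible with the automorphisms of `ℂ`. For `h ∈ G` and real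
`γ`, `A` and `T > 0` let `C_h(T)` be the finite sum

`C_h(T) = ∑_{ℓ ∤ f, σ_ℓ^k = h, k log ℓ ≤ e^{A T}} 1/k · (∑_α α^k) ℓ^{-k} · e^{iγt} / Γ(1 + t)`,
`t = k log ℓ / T`,

where `α` runs over the inverse roots of `P_ℓ`; the integers `∑_α α^k` are given by the numbers of points
of `A` over the extensions of `𝔽_ℓ` at the primes of good reduction. Let `V_g(T)` be the coefficient at
`g` of `Ω⁻¹ (∑_a e^{2πi a/f} [σ_a⁻¹])^d exp (∑_h C_h(T) [h])` in the group algebra `ℂ[G]`. We show for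
`γ > π / 2` and `A > 1 / 2` that the conjecture for `A` and all characters `ψ` of `G` is equivalent to the
following statement, in which no `L`-function and no character occurs: for some positive integer `N` the
vectors `(N V_g(T))_g` come, for arbitrarily large `T`, arbitrarily close to vectors of integers. Then
one and the same vector of integers has distance `O(1/T)` for all large `T`.
-/

set_option autoImplicit false

open Filter Topology Polynomial

namespace Pool.Agent.Results.MP_21281f_nt.GroupRingLimit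

section
variable {G : Type} [CommGroup G]

/-- The Frobenius element `σ_ℓ|_F` at the prime `ℓ ∤ f`; `res a = σ_a|_F`. -/
noncomputable def frob (f : ℕ) (res : (ZMod f)ˣ →* G) (l : Nat.Primes) : G :=
  if h : Nat.Coprime l f then res (ZMod.unitOfCoprime l h) else 1

open Classical in
/-- `L_C(A, ψ, z) = ∏_{ℓ ∤ f} P_ℓ(ψ(ℓ) ℓ^{-z})⁻¹`. -/
noncomputable def lC (f : ℕ) (res : (ZMod f)ˣ →* G) (P : Nat.Primes → ℤ[X]) (ψ : G →* ℂˣ)
    (z : ℂ) : ℂ :=
  ∏' l : Nat.Primes, if (l : ℕ) ∣ f then 1 else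
    (((P l).map (Int.castRingHom ℂ)).eval (ψ (frob f res l) * ((l : ℕ) : ℂ) ^ (-z)))⁻¹

/-- `e^{2πi a/f}`. -/
noncomputable def expo (f : ℕ) (a : (ZMod f)ˣ) : ℂ :=
  Complex.exp (2 * Real.pi * Complex.I * ((a : ZMod f).val : ℂ) / f)

/-- The Gauss sum `τ*(ψ) = ∑_a ψ(a) e^{2πi a/f}`. -/
noncomputable def gauss (f : ℕ) [NeZero f] (res : (ZMod f)ˣ →* G) (ψ : G →* ℂˣ) : ℂ :=
  ∑ a : (ZMod f)ˣ, ψ (res a) * expo f a

/-- `𝓛_C(A, ψ) = τ*(ψ⁻¹)^d L_C(A, ψ, 1) / Ω`. -/
noncomputable def scriptL (f : ℕ) [NeZero f] (res : (ZMod f)ˣ →* G) (d : ℕ) (Ω : ℝ)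
    (L : (G →* ℂˣ) → ℂ → ℂ) (ψ : G →* ℂˣ) : ℂ :=
  gauss f res ψ⁻¹ ^ d * L ψ 1 / Ω

/-- `∑ α^k` over the inverse roots `α` of `P`, with multiplicities; an integer. -/
noncomputable def powerSum (P : ℤ[X]) (k : ℕ) : ℝ :=
  (((P.map (Int.castRingHom ℂ)).roots.map fun ρ => (ρ⁻¹) ^ k).sum).re

/-- The prime powers `ℓ ^ k`, `k = x.2 + 1`, with `log (ℓ ^ k) ≤ e^{A T}`. -/
def cutoff (A T : ℝ) : Set (Nat.Primes × ℕ) :=
  {x | (x.2 + 1) * Real.log ((x.1 : ℕ) : ℝ) ≤ Real.exp (A * T)}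

/-- The term of `C_h(T)` for the prime `ℓ = x.1` and the exponent `k = x.2 + 1`. -/
noncomputable def term (P : Nat.Primes → ℤ[X]) (γ T : ℝ) (x : Nat.Primes × ℕ) : ℂ :=
  ((powerSum (P x.1) (x.2 + 1) * ((x.1 : ℕ) : ℝ) ^ (-((x.2 : ℝ) + 1)) /
    ((x.2 + 1) * Real.Gamma (1 + (x.2 + 1) * Real.log ((x.1 : ℕ) : ℝ) / T)) : ℝ) : ℂ) *
    Complex.exp ((γ * ((x.2 + 1) * Real.log ((x.1 : ℕ) : ℝ) / T) : ℝ) * Complex.I)

open Classical in
/-- `C_h(T)`, a finite sum. -/
noncomputable def frobSum (f : ℕ) (res : (ZMod f)ˣ →* G) (P : Nat.Primes → ℤ[X]) (A γ T : ℝ)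
    (h : G) : ℂ :=
  ∑ᶠ x ∈ cutoff A T,
    if ¬ ((x.1 : ℕ) ∣ f) ∧ frob f res x.1 ^ (x.2 + 1) = h then term P γ T x else 0

/-- The element `∑_a e^{2πi a/f} [σ_a⁻¹]` of `ℂ[G]`. -/
noncomputable def gaussElt (f : ℕ) [NeZero f] (res : (ZMod f)ˣ →* G) : MonoidAlgebra ℂ G :=
  ∑ a : (ZMod f)ˣ, MonoidAlgebra.single (res a)⁻¹ (expo f a)

/-- `V_g(T)`, the coefficient at `g` of `Ω⁻¹ (∑_a e^{2πi a/f} [σ_a⁻¹])^d exp (∑_h C_h(T) [h])`. -/
noncomputable def approx [Fintype G] (f : ℕ) [NeZero f] (res : (ZMod f)ˣ →* G) (d : ℕ) (Ω : ℝ)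
    (P : Nat.Primes → ℤ[X]) (A γ T : ℝ) (g : G) : ℂ :=
  (Ω : ℂ)⁻¹ * ∑' n : ℕ, (gaussElt f res ^ d *
    (∑ h, MonoidAlgebra.single h (frobSum f res P A γ T h) : MonoidAlgebra ℂ G) ^ n).coeff g /
      (n.factorial : ℂ)

end

/-- **Deligne's conjecture for all twists of `A` by the characters of `G`, as a statement on the
approximation of finite sums over primes by integers.** -/
theorem result (G : Type) [CommGroup G] [Fintype G] [Fintype (G →* ℂˣ)] (f : ℕ) [NeZero f]
    (res : (ZMod f)ˣ →* G) (_hres : Function.Surjective res) (P : Nat.Primes → ℤ[X]) (d : ℕ)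
    (hP : ∀ l, (P l).coeff 0 = 1 ∧ (P l).natDegree ≤ 2 * d)
    (hroot : ∀ l, ∀ ρ : ℂ, ((P l).map (Int.castRingHom ℂ)).IsRoot ρ →
      ((l : ℕ) : ℝ) ^ (-(1 / 2) : ℝ) ≤ ‖ρ‖)
    (Ω : ℝ) (hΩ : Ω ≠ 0) (L : (G →* ℂˣ) → ℂ → ℂ) (σ₁ : ℝ)
    (hmer : ∀ ψ, ∀ x : ℝ, 1 ≤ x → MeromorphicAt (L ψ) (x : ℂ))
    (hL : ∀ ψ, ∀ s : ℂ, σ₁ < s.re → L ψ s = lC f res P ψ s)
    (han : ∀ ψ, AnalyticAt ℂ (L ψ) 1)
    (γ : ℝ) (hγ : Real.pi / 2 < γ) (A : ℝ) (hA : 1 / 2 < A) :
    (∀ T : ℝ, (cutoff A T).Finite) ∧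
    List.TFAE [
      ∀ (σ : ℂ ≃+* ℂ) (ψ ψ' : G →* ℂˣ), (∀ g, ((ψ' g : ℂˣ) : ℂ) = σ ((ψ g : ℂˣ) : ℂ)) →
        σ (scriptL f res d Ω L ψ) = scriptL f res d Ω L ψ',
      ∀ g : G, ∃ r : ℚ, (Nat.card G : ℂ)⁻¹ * ∑ ψ : G →* ℂˣ, (((ψ g)⁻¹ : ℂˣ) : ℂ) *
        scriptL f res d Ω L ψ = r,
      ∃ N : ℕ, 0 < N ∧ ∃ z : G → ℤ, ∃ C : ℝ, ∀ᶠ T : ℝ in atTop, ∀ g : G,
        ‖N * approx f res d Ω P A γ T g - z g‖ ≤ C / T,
      ∃ N : ℕ, 0 < N ∧ ∀ δ : ℝ, 0 < δ → ∀ T₀ : ℝ, ∃ T : ℝ, T₀ ≤ T ∧ ∃ z : G → ℤ, ∀ g : G,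
        ‖N * approx f res d Ω P A γ T g - z g‖ < δ] := by
  classical
  set B : Nat.Primes → ℝ[X] := fun l => if (l : ℕ) ∣ f then 1 else
    (P l).map (Int.castRingHom ℝ) with hB
  have hmap : ∀ l, ((P l).map (Int.castRingHom ℝ)).map (algebraMap ℝ ℂ) =
      (P l).map (Int.castRingHom ℂ) := fun l => by
    rw [Polynomial.map_map]
    congr 1
  have hE : TH652.COL.LData TH652.PR.qp B 1 (1 / 2) (2 * d) :=
    { two_le := (TH652.PR.pdata ∅).two_le
      δ_nonneg := zero_le_one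
      sum := (TH652.PR.pdata ∅).sum
      const := fun l => by
        rw [hB]
        beta_reduce
        split_ifs
        · simp
        · rw [Polynomial.coeff_map, (hP l).1]
          simp
      deg := fun l => by
        rw [hB]
        beta_reduce
        split_ifs
        · simp
        · exact (Polynomial.natDegree_map_le).trans (hP l).2
      root := fun l ρ hρ => by
        rw [hB] at hρ
        beta_reduce at hρ
        split_ifs at hρ with h
        · simp [Polynomial.IsRoot.def] at hρ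
        · rw [hmap] at hρ
          exact hroot l ρ hρ }
  have hcfin : ∀ T : ℝ, (cutoff A T).Finite := fun T =>
    TH652.COL.cut_finite hE.two_le TH652.PR.qp_fin A T
  refine ⟨hcfin, ?_⟩
  have hsum : ∀ (T : ℝ) (h : G), frobSum f res P A γ T h =
      -∑ᶠ x ∈ TH652.COL.cut TH652.PR.qp A T, (TH652.CX.iw (frob f res) h x : ℂ) *
        TH652.COL.lterm TH652.PR.qp B 1 γ T x := by
    intro T h
    unfold frobSum
    have hfin := hcfin T
    have hfin' : (TH652.COL.cut TH652.PR.qp A T).Finite := hfin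
    rw [finsum_mem_eq_finite_toFinset_sum _ hfin, finsum_mem_eq_finite_toFinset_sum _ hfin',
      ← Finset.sum_neg_distrib]
    refine Finset.sum_congr rfl fun x _ => ?_
    by_cases hv : (x.1 : ℕ) ∣ f
    · have h1 : TH652.COL.lterm TH652.PR.qp B 1 γ T x = 0 := by
        unfold TH652.COL.lterm
        rw [hB]
        beta_reduce
        rw [if_pos hv, TH652.ART.pw_one]
        simp
      rw [h1, if_neg fun h' => h'.1 hv, mul_zero, neg_zero]
    · have h1 : TH652.COL.lterm TH652.PR.qp B 1 γ T x = -term P γ T x := by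
        have h2 : TH652.COL.pw (B x.1) (x.2 + 1) = powerSum (P x.1) (x.2 + 1) := by
          unfold TH652.COL.pw powerSum
          rw [hB]
          beta_reduce
          rw [if_neg hv, hmap]
        unfold TH652.COL.lterm term
        rw [h2, mul_one]
        unfold TH652.PR.qp
        rw [Complex.ofReal_neg, neg_mul]
      rw [h1]
      unfold TH652.CX.iw
      by_cases hg : frob f res x.1 ^ (x.2 + 1) = h
      · rw [if_pos ⟨hv, hg⟩, if_pos hg]
        simp
      · rw [if_neg fun h' => hg h'.2, if_neg hg]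
        simp
  have hF : ∀ ψ, ∀ s : ℂ, σ₁ < s.re → L ψ s = ∏' l, (((B l).map (algebraMap ℝ ℂ)).eval
      (((ψ (frob f res l) : ℂˣ) : ℂ) * (TH652.PR.qp l : ℂ) ^ (-s)))⁻¹ := by
    intro ψ s hs
    rw [hL ψ s hs]
    unfold lC
    refine tprod_congr fun l => ?_
    rw [hB]
    beta_reduce
    by_cases hv : (l : ℕ) ∣ f
    · rw [if_pos hv, if_pos hv]
      simp
    · rw [if_neg hv, if_neg hv, hmap]
      unfold TH652.PR.qp
      rw [Complex.ofReal_natCast]
  have hΩc : (Ω : ℂ) ≠ 0 := by exact_mod_cast hΩ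
  have hev : ∀ ψ : G →* ℂˣ, TH652.CX.ev ψ (gaussElt f res ^ d) = gauss f res ψ⁻¹ ^ d := by
    intro ψ
    rw [map_pow]
    congr 1
    unfold gaussElt gauss
    rw [map_sum]
    refine Finset.sum_congr rfl fun a _ => ?_
    rw [TH652.CX.ev_single, map_inv, mul_comm]
    rfl
  set V : G → ℂ := fun g => (Nat.card G : ℂ)⁻¹ * ∑ ψ : G →* ℂˣ, (((ψ g)⁻¹ : ℂˣ) : ℂ) *
    scriptL f res d Ω L ψ with hV
  have hlaw : ∀ g : G, (fun T : ℝ => approx f res d Ω P A γ T g - V g)
      =O[atTop] (fun T : ℝ => 1 / T) := by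
    intro g
    have hone : ((1 : ℝ) : ℂ) = 1 := Complex.ofReal_one
    have h1 := TH652.CX.ring_law (s₀ := 1) mul_comm hE TH652.PR.qp_fin (frob f res) hmer hF
      (fun ψ => by rw [hone]; exact han ψ) hγ (A := A) (by linarith) (by linarith)
      (gaussElt f res ^ d) g
    refine (h1.const_mul_left ((Ω : ℂ)⁻¹)).congr_left fun T => ?_
    unfold approx TH652.CX.uexp
    simp only [hsum, hev, hone]
    rw [hV]
    beta_reduce
    unfold scriptL
    rw [mul_sub]
    congr 1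
    rw [← mul_assoc, mul_comm ((Ω : ℂ)⁻¹), mul_assoc]
    congr 1
    rw [Finset.mul_sum]
    refine Finset.sum_congr rfl fun ψ _ => ?_
    field_simp
  tfae_have 1 ↔ 2 := TH652.CX.equiv_rat (scriptL f res d Ω L)
  tfae_have 2 → 3 := by
    intro h
    choose r hr using h
    set N : ℕ := ∏ g, (r g).den with hN
    have hN0 : 0 < N := Finset.prod_pos fun g _ => (r g).den_pos
    have hz : ∀ g, ∃ z : ℤ, (N : ℂ) * V g = z := by
      intro g
      refine ⟨(∏ h ∈ Finset.univ.erase g, ((r h).den : ℤ)) * (r g).num, ?_⟩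
      have h1 : (N : ℚ) * r g = (((∏ h ∈ Finset.univ.erase g, ((r h).den : ℤ)) * (r g).num : ℤ) :
          ℚ) := by
        have h2 : (N : ℚ) = (r g).den * ∏ h ∈ Finset.univ.erase g, ((r h).den : ℚ) := by
          rw [hN, Nat.cast_prod]
          exact (Finset.mul_prod_erase Finset.univ (fun i => ((r i).den : ℚ))
            (Finset.mem_univ g)).symm
        have h3 : r g * (r g).den = (r g).num := Rat.mul_den_eq_num (r g)
        rw [h2]
        push_cast
        rw [← h3]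
        ring
      have h4 : V g = (r g : ℂ) := hr g
      rw [h4]
      exact_mod_cast congrArg (fun q : ℚ => (q : ℂ)) h1
    choose z hz using hz
    refine ⟨N, hN0, z, ?_⟩
    choose b hb using fun g => (hlaw g).bound
    refine ⟨∑ g, (N : ℝ) * |b g|, ?_⟩
    filter_upwards [eventually_all.2 hb, eventually_gt_atTop 0] with T hT hT0 g
    have h1 := hT g
    rw [Real.norm_eq_abs, abs_of_pos (by positivity : 0 < 1 / T)] at h1
    have h2 : (N : ℂ) * approx f res d Ω P A γ T g - z g =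
        N * (approx f res d Ω P A γ T g - V g) := by
      rw [← hz]
      ring
    rw [h2, norm_mul, Complex.norm_natCast]
    calc (N : ℝ) * ‖approx f res d Ω P A γ T g - V g‖ ≤ N * (|b g| * (1 / T)) := by
          refine mul_le_mul_of_nonneg_left (h1.trans ?_) (Nat.cast_nonneg _)
          exact mul_le_mul_of_nonneg_right (le_abs_self _) (by positivity)
      _ = ((N : ℝ) * |b g|) / T := by ring
      _ ≤ (∑ g, (N : ℝ) * |b g|) / T := by
          refine div_le_div_of_nonneg_right ?_ hT0.le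
          exact Finset.single_le_sum (f := fun g => (N : ℝ) * |b g|) (fun g _ => by positivity)
            (Finset.mem_univ g)
  tfae_have 3 → 4 := by
    rintro ⟨N, hN, z, C, hC⟩
    refine ⟨N, hN, fun δ hδ T₀ => ?_⟩
    have h1 : Tendsto (fun T : ℝ => C / T) atTop (𝓝 0) :=
      tendsto_const_nhds.div_atTop tendsto_id
    obtain ⟨T, hT1, hT2, hT3⟩ := (hC.and ((h1.eventually_lt_const hδ).and
      (eventually_ge_atTop T₀))).exists
    exact ⟨T, hT3, z, fun g => lt_of_le_of_lt (hT1 g) hT2⟩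
  tfae_have 4 → 2 := by
    rintro ⟨N, hN, h⟩
    have hN0 : (N : ℂ) ≠ 0 := by exact_mod_cast hN.ne'
    obtain ⟨z, hz⟩ := TH652.CX.closed_of_finite' (X := G → ℤ) (G := G)
      (fun z g => ((z g : ℤ) : ℂ))
      (fun b => by
        refine (Set.finite_Icc (fun _ : G => -⌈|b|⌉) (fun _ : G => ⌈|b|⌉)).subset ?_
        intro z hz
        have h1 : ∀ g, |(z g : ℝ)| ≤ |b| := fun g => by
          have h2 : ‖((z g : ℤ) : ℂ)‖ ≤ b := hz g
          rw [Complex.norm_intCast] at h2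
          exact h2.trans (le_abs_self b)
        constructor
        · intro g
          have h2 := neg_le_of_abs_le (h1 g)
          have h3 := Int.le_ceil |b|
          have h4 : (-(⌈|b|⌉ : ℝ)) ≤ z g := by linarith
          exact_mod_cast h4
        · intro g
          have h2 := le_of_abs_le (h1 g)
          have h3 := Int.le_ceil |b|
          have h4 : (z g : ℝ) ≤ ⌈|b|⌉ := by linarith
          exact_mod_cast h4)
      (fun g => N * V g)
      (fun δ hδ => by
        have h1 : ∀ g : G, ∀ᶠ T : ℝ in atTop,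
            ‖(N : ℂ) * (approx f res d Ω P A γ T g - V g)‖ < δ / 2 := by
          intro g
          have h2 := ((hlaw g).trans_tendsto TH652.CX.inv_to_zero).const_mul (N : ℂ)
          rw [mul_zero] at h2
          have h3 := h2.norm
          rw [norm_zero] at h3
          exact h3.eventually_lt_const (by positivity)
        obtain ⟨T₀, hT₀⟩ := eventually_atTop.1 (eventually_all.2 h1)
        obtain ⟨T, hT, z, h4⟩ := h (δ / 2) (by positivity) T₀
        refine ⟨z, fun g => ?_⟩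
        have h7 : ((z g : ℤ) : ℂ) - N * V g = N * (approx f res d Ω P A γ T g - V g) -
            (N * approx f res d Ω P A γ T g - z g) := by ring
        rw [h7]
        have h8 := norm_sub_le (N * (approx f res d Ω P A γ T g - V g))
          (N * approx f res d Ω P A γ T g - z g)
        have h9 := h4 g
        have h10 := hT₀ T hT g
        linarith)
    intro g
    refine ⟨(z g : ℚ) / N, ?_⟩
    have h1 : ((z g : ℤ) : ℂ) = N * V g := hz g
    have h2 : V g = ((z g : ℤ) : ℂ) / N := by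
      rw [h1, mul_div_cancel_left₀ _ hN0]
    change V g = _
    rw [h2]
    push_cast
    rfl
  tfae_finish

end Pool.Agent.Results.MP_21281f_nt.GroupRingLimit
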